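import Pool.Agent.Lib_MP_f70651_al.Full.Main

/-!
# MP_f70651_al, Q1 : full answer (yes, for every polynomial `f`)

Let `f ∈ ℂ[s, t]`, `R_∞ = ℂ[y_ij : i, j ∈ ℕ, i ≠ j]`, `S_∞ = ℂ[x_i : i ∈ ℕ]` and let
`phi f : R_∞ → S_∞` be the algebra map `y_ij ↦ f(x_i, x_j)`.  Its kernel `I_∞` is finitely
generated up to the action of the permutations of `ℕ` which move only finitely many points.

The proof (see `Pool/Agent/Lib_MP_f70651_al/Full/Blueprint.md`) shows that the algebra generated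
by `e`, the off diagonal entries `M_ij` (`i ≠ j`) of the generic matrix of rank `ρ`, the `e M_ii`
and finitely many orbits of free variables is noetherian up to increasing maps (induction on the
rank, with a Rees algebra argument at `M_ii = ∞`), and deduces the finiteness of the relations from
the finiteness of their gradients.
-/

namespace Pool.Agent.Results.MP_f70651_al.KernelFG

open MvPolynomial

/-- The `ℂ`-algebra map `ℂ[y_ij : i ≠ j] → ℂ[x_i]`, `y_ij ↦ f(x_i, x_j)`. -/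
noncomputable def phi (f : MvPolynomial (Fin 2) ℂ) :
    MvPolynomial {p : ℕ × ℕ // p.1 ≠ p.2} ℂ →ₐ[ℂ] MvPolynomial ℕ ℂ :=
  aeval (fun p : {p : ℕ × ℕ // p.1 ≠ p.2} =>
    (aeval ![X p.1.1, X p.1.2] f : MvPolynomial ℕ ℂ))

/-- The action of a permutation `σ` of `ℕ` on `ℂ[y_ij : i ≠ j]` : `y_ij ↦ y_{σ(i) σ(j)}`. -/
noncomputable def permute (σ : Equiv.Perm ℕ) :
    MvPolynomial {p : ℕ × ℕ // p.1 ≠ p.2} ℂ →ₐ[ℂ] MvPolynomial {p : ℕ × ℕ // p.1 ≠ p.2} ℂ :=
  rename (fun p => ⟨(σ p.1.1, σ p.1.2), fun h => p.2 (σ.injective h)⟩)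

/-- For every polynomial `f` the kernel of `y_ij ↦ f(x_i, x_j)` is finitely generated up to
symmetry. -/
theorem result (f : MvPolynomial (Fin 2) ℂ) :
    ∃ G : Finset (MvPolynomial {p : ℕ × ℕ // p.1 ≠ p.2} ℂ),
      (∀ g ∈ G, g ∈ RingHom.ker (phi f)) ∧
      Ideal.span {q | ∃ σ : Equiv.Perm ℕ, {i | σ i ≠ i}.Finite ∧ ∃ g ∈ G, q = permute σ g} =
        RingHom.ker (phi f) := by
  obtain ⟨G, h1, h2⟩ := MPf70651.Full.main_full f
  exact ⟨G, fun g hg => h1 g hg, h2⟩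

end Pool.Agent.Results.MP_f70651_al.KernelFG
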